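import Pool.Agent.Helper13.NF.Copies
import Pool.Agent.Helper13.NF.MainFrom
import Pool.Agent.Helper13.NF.Round
import Pool.Agent.Helper46.NF13.Peel
import Pool.Agent.Helper37.NF13.Levels
import Pool.Agent.Helper55.NF13.Split

/-!
# MP_6cccb1_co: near 1-factors with prescribed edge-lengths
-/

set_option autoImplicit false

open Finset

namespace Pool.Agent.Results.MP_6cccb1_co.NearOneFactors

/-- The length of the edge `{x, y}`, `x < y`, of the complete graph on `{0, …, v-1}`. -/
def len (v : ℕ) (e : ℕ × ℕ) : ℕ := min (e.2 - e.1) (v - (e.2 - e.1))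

/-- `F` is a near 1-factor of the complete graph on `{0, …, 2n}`: a set of `n` pairwise disjoint
edges; the edge `{x, y}` is written as the pair `(x, y)` with `x < y`. -/
def IsNearOneFactor (n : ℕ) (F : Finset (ℕ × ℕ)) : Prop :=
  F.card = n ∧ (∀ e ∈ F, e.1 < e.2 ∧ e.2 < 2 * n + 1) ∧
    ∀ e ∈ F, ∀ e' ∈ F, e ≠ e' → e.1 ≠ e'.1 ∧ e.1 ≠ e'.2 ∧ e.2 ≠ e'.1 ∧ e.2 ≠ e'.2

lemma natAbs_len (v a b : ℕ) :
    min (Int.natAbs ((a : ℤ) - (b : ℤ))) (v - Int.natAbs ((a : ℤ) - (b : ℤ)))
      = len v (min a b, max a b) := by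
  unfold len
  have h : Int.natAbs ((a : ℤ) - (b : ℤ)) = max a b - min a b := by omega
  rw [h]

/-- from an injection to a set of edges -/
lemma to_set (n : ℕ) (g : Fin n ⊕ Fin n → Fin (2 * n + 1)) (hg : Function.Injective g) :
    ∃ F : Finset (ℕ × ℕ), IsNearOneFactor n F ∧
      F.val.map (len (2 * n + 1)) = Multiset.map
        (fun i : Fin n =>
          min (Int.natAbs (((g (Sum.inl i) : ℕ) : ℤ) - ((g (Sum.inr i) : ℕ) : ℤ)))
            (2 * n + 1 -
              Int.natAbs (((g (Sum.inl i) : ℕ) : ℤ) - ((g (Sum.inr i) : ℕ) : ℤ))))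
        (Finset.univ : Finset (Fin n)).val := by
  classical
  have hval : ∀ s t : Fin n ⊕ Fin n, ((g s : Fin (2 * n + 1)) : ℕ) = (g t : ℕ) → s = t :=
    fun s t h => hg (Fin.ext h)
  have hlr : ∀ i j : Fin n, ((g (Sum.inl i) : Fin (2 * n + 1)) : ℕ) ≠ (g (Sum.inr j) : ℕ) := by
    intro i j h
    have := hval _ _ h
    simp at this
  have hll : ∀ i j : Fin n, ((g (Sum.inl i) : Fin (2 * n + 1)) : ℕ) = (g (Sum.inl j) : ℕ) →
      i = j := by
    intro i j h
    have := hval _ _ h
    simpa using this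
  have hrr : ∀ i j : Fin n, ((g (Sum.inr i) : Fin (2 * n + 1)) : ℕ) = (g (Sum.inr j) : ℕ) →
      i = j := by
    intro i j h
    have := hval _ _ h
    simpa using this
  let φ : Fin n → ℕ × ℕ := fun i =>
    (min (g (Sum.inl i) : ℕ) (g (Sum.inr i) : ℕ), max (g (Sum.inl i) : ℕ) (g (Sum.inr i) : ℕ))
  have hφ : Function.Injective φ := by
    intro i j h
    simp only [φ, Prod.mk.injEq] at h
    have h1 := hlr i i
    have h2 := hlr j j
    have h3 := hlr i j
    have h4 := hlr j i
    have h5 := hll i j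
    have h6 := hrr i j
    by_contra hne
    have h7 : ((g (Sum.inl i) : Fin (2 * n + 1)) : ℕ) ≠ (g (Sum.inl j) : ℕ) := fun h => hne (h5 h)
    omega
  refine ⟨univ.image φ, ⟨?_, ?_, ?_⟩, ?_⟩
  · rw [Finset.card_image_of_injective _ hφ, Finset.card_univ, Fintype.card_fin]
  · intro e he
    rw [Finset.mem_image] at he
    obtain ⟨i, -, rfl⟩ := he
    have h1 := hlr i i
    have h2 := (g (Sum.inl i)).isLt
    have h3 := (g (Sum.inr i)).isLt
    simp only [φ]
    omega
  · intro e he e' he' hne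
    rw [Finset.mem_image] at he he'
    obtain ⟨i, -, rfl⟩ := he
    obtain ⟨j, -, rfl⟩ := he'
    have hij : i ≠ j := fun h => hne (by rw [h])
    have h3 := hlr i j
    have h4 := hlr j i
    have h5 : ((g (Sum.inl i) : Fin (2 * n + 1)) : ℕ) ≠ (g (Sum.inl j) : ℕ) :=
      fun h => hij (hll i j h)
    have h6 : ((g (Sum.inr i) : Fin (2 * n + 1)) : ℕ) ≠ (g (Sum.inr j) : ℕ) :=
      fun h => hij (hrr i j h)
    simp only [φ]
    omega
  · rw [Finset.image_val_of_injOn hφ.injOn, Multiset.map_map]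
    apply Multiset.map_congr rfl
    intro i _
    simp only [Function.comp, φ]
    exact (natAbs_len _ _ _).symm

/-- from a set of edges to an injection -/
lemma of_set (n : ℕ) (F : Finset (ℕ × ℕ)) (hF : IsNearOneFactor n F) :
    ∃ g : Fin n ⊕ Fin n → Fin (2 * n + 1), Function.Injective g ∧
      Multiset.map
        (fun i : Fin n =>
          min (Int.natAbs (((g (Sum.inl i) : ℕ) : ℤ) - ((g (Sum.inr i) : ℕ) : ℤ)))
            (2 * n + 1 -
              Int.natAbs (((g (Sum.inl i) : ℕ) : ℤ) - ((g (Sum.inr i) : ℕ) : ℤ))))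
        (Finset.univ : Finset (Fin n)).val = F.val.map (len (2 * n + 1)) := by
  classical
  obtain ⟨hc, hlt, hdis⟩ := hF
  let σ : Fin n ≃ F := (F.equivFinOfCardEq hc).symm
  have hσ : ∀ i j : Fin n, i ≠ j → ((σ i : F) : ℕ × ℕ) ≠ (σ j : F) := by
    intro i j hij h
    exact hij (σ.injective (Subtype.ext h))
  refine ⟨fun s => s.elim
    (fun i => ⟨((σ i : F) : ℕ × ℕ).1, by have := hlt _ (σ i).2; omega⟩)
    (fun i => ⟨((σ i : F) : ℕ × ℕ).2, (hlt _ (σ i).2).2⟩), ?_, ?_⟩
  · rintro (i | i) (j | j) h <;> simp only [Sum.elim_inl, Sum.elim_inr, Fin.mk.injEq] at h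
    · by_contra hne
      have hij : i ≠ j := fun h => hne (by rw [h])
      exact (hdis _ (σ i).2 _ (σ j).2 (hσ i j hij)).1 h
    · exfalso
      by_cases hij : i = j
      · subst hij
        have := (hlt _ (σ i).2).1
        omega
      · exact (hdis _ (σ i).2 _ (σ j).2 (hσ i j hij)).2.1 h
    · exfalso
      by_cases hij : i = j
      · subst hij
        have := (hlt _ (σ i).2).1
        omega
      · exact (hdis _ (σ i).2 _ (σ j).2 (hσ i j hij)).2.2.1 h
    · by_contra hne
      have hij : i ≠ j := fun h => hne (by rw [h])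
      exact (hdis _ (σ i).2 _ (σ j).2 (hσ i j hij)).2.2.2 h
  · simp only [Sum.elim_inl, Sum.elim_inr]
    have h1 : ∀ i : Fin n,
        min (Int.natAbs (((((σ i : F) : ℕ × ℕ).1 : ℕ) : ℤ) - ((((σ i : F) : ℕ × ℕ).2 : ℕ) : ℤ)))
          (2 * n + 1 -
            Int.natAbs (((((σ i : F) : ℕ × ℕ).1 : ℕ) : ℤ) - ((((σ i : F) : ℕ × ℕ).2 : ℕ) : ℤ)))
          = len (2 * n + 1) ((σ i : F) : ℕ × ℕ) := by
      intro i
      rw [natAbs_len]
      have h2 := (hlt _ (σ i).2).1
      rw [min_eq_left h2.le, max_eq_right h2.le]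
    rw [Multiset.map_congr rfl fun i _ => h1 i]
    have h3 : F.val = Multiset.map (fun i : Fin n => ((σ i : F) : ℕ × ℕ))
        (Finset.univ : Finset (Fin n)).val := by
      have h4 : F = univ.image fun i : Fin n => ((σ i : F) : ℕ × ℕ) := by
        ext e
        simp only [Finset.mem_image, Finset.mem_univ, true_and]
        constructor
        · intro he
          exact ⟨σ.symm ⟨e, he⟩, by simp⟩
        · rintro ⟨i, rfl⟩
          exact (σ i).2
      conv_lhs => rw [h4]
      rw [Finset.image_val_of_injOn]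
      intro i _ j _ h
      exact σ.injective (Subtype.ext h)
    rw [h3, Multiset.map_map]
    rfl

/-- Let `v = 2n + 1` and let `L` be a list (multiset) of `mn` integers in `{1, …, n}`. Then `L` is the
union of the lists of edge-lengths of `m` near 1-factors of `K_v` if and only if
`2 M_d(L) ≤ m (v - d)` for every divisor `d` of `v`, where `M_d(L)` is the number of entries of `L`
divisible by `d`. For `m = 1` this is the conjecture of Meszka, Pasotti and Pellegrini. -/
theorem result (m n : ℕ) (L : Multiset ℕ) (hcard : Multiset.card L = m * n)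
    (hL : ∀ x ∈ L, 1 ≤ x ∧ x ≤ n) :
    (∃ F : Fin m → Finset (ℕ × ℕ), (∀ c, IsNearOneFactor n (F c)) ∧
        ∑ c, (F c).val.map (len (2 * n + 1)) = L) ↔
      ∀ d : ℕ, d ∣ 2 * n + 1 → 2 * Multiset.card (L.filter fun x => d ∣ x) ≤ m * (2 * n + 1 - d) := by
  have key := Pool.Agent.Helper13.NF.copies_of
    (Pool.Agent.Helper13.NF.main_C_of
      (fun {_ _ _} => Pool.Agent.Helper13.NF.TReal.split)
      (fun {_ _ _ _} => Pool.Agent.Helper13.NF.TReal.levels)
      (fun {_ _ _ _} => Pool.Agent.Helper13.NF.TReal.levels_switch)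
      Pool.Agent.Helper13.NF.rounding13
      Pool.Agent.Helper13.NF.peel) m n L hcard hL
  constructor
  · rintro ⟨F, hF, hs⟩ d hd
    choose g hg hgF using fun c => of_set n (F c) (hF c)
    exact key.1 ⟨g, hg, by rw [← hs]; exact Finset.sum_congr rfl fun c _ => hgF c⟩ d
      (Nat.mem_divisors.2 ⟨hd, by omega⟩)
  · intro h
    obtain ⟨g, hg, hs⟩ := key.2 fun d hd => h d (Nat.dvd_of_mem_divisors hd)
    choose F hF hFg using fun c => to_set n (g c) (hg c)
    exact ⟨F, hF, by rw [← hs]; exact Finset.sum_congr rfl fun c _ => hFg c⟩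

end Pool.Agent.Results.MP_6cccb1_co.NearOneFactors
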